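import Pool.Agent.Gol.Sidon

set_option autoImplicit false

open Module

namespace Pool.Agent.Gol

/-- a plane in a cubic extension is not stable under multiplication by an element outside `K` -/
theorem not_stable {K L : Type*} [Field K] [Field L] [Algebra K L] [FiniteDimensional K L]
    (h3 : finrank K L = 3) (V : Submodule K L) (hV : finrank K V = 2) (g : L)
    (hst : ∀ v ∈ V, g * v ∈ V) (v : L) (hv : v ∈ V) (hv0 : v ≠ 0) :
    ∃ c : K, algebraMap K L c = g := by
  have hint : IsIntegral K g := Algebra.IsIntegral.isIntegral g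
  have hpow : ∀ i : ℕ, g ^ i * v ∈ V := by
    intro i
    induction i with
    | zero => simpa using hv
    | succ i ih =>
      have := hst _ ih
      rw [pow_succ', mul_assoc]
      exact this
  have hli := linearIndependent_pow (K := K) g
  have hli2 : LinearIndependent K
      (fun i : Fin (minpoly K g).natDegree => (⟨g ^ (i : ℕ) * v, hpow i⟩ : V)) := by
    rw [linearIndependent_iff'] at hli ⊢
    intro s c hc i hi
    have h1 : (∑ i ∈ s, c i • g ^ (i : ℕ)) * v = 0 := by
      have h2 := congrArg Subtype.val hc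
      rw [Finset.sum_mul]
      simpa using h2
    have h3 : ∑ i ∈ s, c i • g ^ (i : ℕ) = 0 := by
      rcases mul_eq_zero.mp h1 with h | h
      · exact h
      · exact absurd h hv0
    exact hli s c h3 i hi
  have hle := hli2.fintype_card_le_finrank
  rw [hV, Fintype.card_fin] at hle
  have hdvd := minpoly.degree_dvd (K := K) hint
  rw [h3] at hdvd
  have hpos := minpoly.natDegree_pos hint
  have h1 : (minpoly K g).natDegree = 1 := by
    interval_cases h : (minpoly K g).natDegree
    · rfl
    · omega
  exact minpoly.natDegree_eq_one_iff.mp h1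

theorem plane_sidon {K L : Type*} [Field K] [Field L] [Algebra K L] [FiniteDimensional K L]
    (h3 : finrank K L = 3) (l : L →ₗ[K] K) (hl : l ≠ 0) (x₁ x₂ x₃ x₄ : L) (k : K)
    (h₁ : l x₁ = 0) (h₂ : l x₂ = 0) (h₃ : l x₃ = 0) (h₄ : l x₄ = 0)
    (n₁ : x₁ ≠ 0) (n₂ : x₂ ≠ 0) (n₄ : x₄ ≠ 0)
    (hm : x₁ * x₄ = k • (x₂ * x₃)) : (∃ c : K, x₁ = c • x₂) ∨ (∃ c : K, x₁ = c • x₃) := by
  have hsurj : Function.Surjective l := LinearMap.surjective hl
  have hker : finrank K (LinearMap.ker l) = 2 := by
    have h := LinearMap.finrank_range_add_finrank_ker l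
    rw [LinearMap.range_eq_top.mpr hsurj, finrank_top, finrank_self] at h
    omega
  by_cases hind : LinearIndependent K ![(⟨x₂, h₂⟩ : LinearMap.ker l), ⟨x₄, h₄⟩]
  · left
    have htop := hind.span_eq_top_of_card_eq_finrank (by simp [hker])
    obtain ⟨g, hg⟩ : ∃ g : L, g = x₁ / x₂ := ⟨_, rfl⟩
    have hg2 : g * x₂ = x₁ := by rw [hg]; field_simp
    have hg4 : g * x₄ = k • x₃ := by
      have : x₂ * (g * x₄) = x₂ * (k • x₃) := by
        rw [← mul_assoc, mul_comm x₂ g, hg2, hm, mul_smul_comm]
      exact mul_left_cancel₀ n₂ this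
    have hst : ∀ v ∈ LinearMap.ker l, g * v ∈ LinearMap.ker l := by
      intro v hv
      have hv2 : (⟨v, hv⟩ : LinearMap.ker l) ∈
          Submodule.span K (Set.range ![(⟨x₂, h₂⟩ : LinearMap.ker l), ⟨x₄, h₄⟩]) := by
        rw [htop]; exact Submodule.mem_top
      rw [Matrix.range_cons, Matrix.range_cons, Matrix.range_empty, Set.union_empty,
        Set.singleton_union, Submodule.mem_span_pair] at hv2
      obtain ⟨a, b, hab⟩ := hv2
      have hab' : a • x₂ + b • x₄ = v := by
        have := congrArg Subtype.val hab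
        simpa using this
      rw [← hab', mul_add, mul_smul_comm, mul_smul_comm, hg2, hg4, LinearMap.mem_ker, map_add,
        map_smul, map_smul, map_smul, h₁, h₃]
      simp
    obtain ⟨c, hc⟩ := not_stable h3 (LinearMap.ker l) hker g hst x₂ h₂ n₂
    refine ⟨c, ?_⟩
    rw [← hg2, ← hc, Algebra.smul_def]
  · right
    rw [LinearIndependent.pair_iff] at hind
    push Not at hind
    obtain ⟨s, t, hst, hne⟩ := hind
    have hst' : s • x₂ + t • x₄ = 0 := by
      have := congrArg Subtype.val hst
      simpa using this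
    have ht : t ≠ 0 := by
      intro h
      rw [h, zero_smul, add_zero] at hst'
      rcases smul_eq_zero.mp hst' with h0 | h0
      · exact hne h0 h
      · exact n₂ h0
    have hs : s ≠ 0 := by
      intro h
      rw [h, zero_smul, zero_add] at hst'
      rcases smul_eq_zero.mp hst' with h0 | h0
      · exact ht h0
      · exact n₄ h0
    -- x₄ = -(s/t) x₂
    have h5 : t • (x₁ * x₄) = -(s • (x₁ * x₂)) := by
      have h6 : x₁ * (s • x₂ + t • x₄) = 0 := by rw [hst', mul_zero]
      rw [mul_add, mul_smul_comm, mul_smul_comm] at h6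
      exact eq_neg_of_add_eq_zero_right h6
    rw [hm] at h5
    have h7 : x₂ * ((t * k) • x₃) = x₂ * ((-s) • x₁) := by
      rw [mul_smul_comm, mul_smul_comm, mul_smul, h5, neg_smul, mul_comm x₂ x₁]
    have h8 : (t * k) • x₃ = (-s) • x₁ := mul_left_cancel₀ n₂ h7
    refine ⟨(-s)⁻¹ * (t * k), ?_⟩
    rw [mul_smul, h8, smul_smul, inv_mul_cancel₀ (neg_ne_zero.mpr hs), one_smul]

/-- the elements fixed by the `q`-th power map are those of `K` -/
theorem mem_of_pow_card {K L : Type*} [Field K] [Fintype K] [Field L] [Algebra K L]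
    (x : L) (hx : x ^ Fintype.card K = x) : ∃ c : K, algebraMap K L c = x := by
  classical
  have hq : 1 < Fintype.card K := Fintype.one_lt_card
  have hne : (Polynomial.X ^ Fintype.card K - Polynomial.X : Polynomial L) ≠ 0 :=
    FiniteField.X_pow_card_sub_X_ne_zero L hq
  have hsub : Finset.univ.image (algebraMap K L) ⊆
      (Polynomial.X ^ Fintype.card K - Polynomial.X : Polynomial L).roots.toFinset := by
    intro y hy
    obtain ⟨c, _, rfl⟩ := Finset.mem_image.mp hy
    rw [Multiset.mem_toFinset, Polynomial.mem_roots hne]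
    simp only [Polynomial.IsRoot.def, Polynomial.eval_sub, Polynomial.eval_pow,
      Polynomial.eval_X]
    rw [← map_pow, FiniteField.pow_card, sub_self]
  have hcard : (Polynomial.X ^ Fintype.card K - Polynomial.X : Polynomial L).roots.toFinset.card
      ≤ (Finset.univ.image (algebraMap K L)).card := by
    rw [Finset.card_image_of_injective _ (algebraMap K L).injective, Finset.card_univ]
    refine (Multiset.toFinset_card_le _).trans ?_
    refine (Polynomial.card_roots' _).trans ?_
    rw [FiniteField.X_pow_card_sub_X_natDegree_eq L hq]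
  have heq := Finset.eq_of_subset_of_card_le hsub hcard
  have hxr : x ∈ (Polynomial.X ^ Fintype.card K - Polynomial.X : Polynomial L).roots.toFinset := by
    rw [Multiset.mem_toFinset, Polynomial.mem_roots hne]
    simp only [Polynomial.IsRoot.def, Polynomial.eval_sub, Polynomial.eval_pow,
      Polynomial.eval_X]
    rw [hx, sub_self]
  rw [← heq] at hxr
  obtain ⟨c, _, hc⟩ := Finset.mem_image.mp hxr
  exact ⟨c, hc⟩

end Pool.Agent.Gol
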