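import Pool.Agent.Gol.Window
import Pool.Agent.Gol.Singer

set_option autoImplicit false

open Module

namespace Pool.Agent.Gol

/-- `A` is a Golomb ruler: the positive differences of its marks are pairwise distinct. -/
def IsGolomb (A : Finset ℕ) : Prop :=
  ∀ a ∈ A, ∀ b ∈ A, ∀ c ∈ A, ∀ d ∈ A, a < b → c < d → b - a = d - c → a = c ∧ b = d

/-- There is a Golomb ruler with `k` marks, all in `{0, …, L}`; that is, `G(k) ≤ L`. -/
def HasRuler (k L : ℕ) : Prop :=
  ∃ A : Finset ℕ, A.card = k ∧ (∀ a ∈ A, a ≤ L) ∧ IsGolomb A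

/-- `D` is a set of residues modulo `n` with distinct differences modulo `n`. -/
def ModSidon (n : ℕ) (D : Finset ℕ) : Prop :=
  (∀ a ∈ D, a < n) ∧
    ∀ a ∈ D, ∀ b ∈ D, ∀ c ∈ D, ∀ d ∈ D, (a + d) % n = (b + c) % n → a = b ∨ a = c

theorem IsGolomb.mono {A B : Finset ℕ} (hB : IsGolomb B) (h : A ⊆ B) : IsGolomb A :=
  fun a ha b hb c hc d hd => hB a (h ha) b (h hb) c (h hc) d (h hd)

theorem ModSidon.isGolomb {n : ℕ} {D : Finset ℕ} (h : ModSidon n D) : IsGolomb D := by
  intro a ha b hb c hc d hd hab hcd he
  have h1 : a + d = b + c := by omega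
  rcases h.2 a ha b hb c hc d hd (by rw [h1]) with h2 | h2
  · omega
  · exact ⟨h2, by omega⟩

/-- a subruler inside `[W, W + L]`, shifted to the origin -/
theorem hasRuler_of_window {A : Finset ℕ} (hA : IsGolomb A) (W L k : ℕ)
    (hk : k ≤ (A.filter (fun a => W ≤ a)).card) (hL : ∀ a ∈ A, a ≤ W + L) : HasRuler k L := by
  classical
  obtain ⟨B, hB, hBc⟩ := Finset.exists_subset_card_eq hk
  have hBW : ∀ b ∈ B, W ≤ b := fun b hb => (Finset.mem_filter.mp (hB hb)).2
  have hBA : ∀ b ∈ B, b ∈ A := fun b hb => (Finset.mem_filter.mp (hB hb)).1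
  refine ⟨B.image (fun b => b - W), ?_, ?_, ?_⟩
  · rw [Finset.card_image_of_injOn, hBc]
    intro x hx y hy hxy
    have h1 := hBW x hx
    have h2 := hBW y hy
    simp only at hxy
    omega
  · intro a ha
    obtain ⟨b, hb, rfl⟩ := Finset.mem_image.mp ha
    have := hL b (hBA b hb)
    omega
  · intro a ha b hb c hc d hd hab hcd he
    obtain ⟨a', ha', rfl⟩ := Finset.mem_image.mp ha
    obtain ⟨b', hb', rfl⟩ := Finset.mem_image.mp hb
    obtain ⟨c', hc', rfl⟩ := Finset.mem_image.mp hc
    obtain ⟨d', hd', rfl⟩ := Finset.mem_image.mp hd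
    have h1 := hBW a' ha'
    have h2 := hBW b' hb'
    have h3 := hBW c' hc'
    have h4 := hBW d' hd'
    have := hA a' (hBA _ ha') b' (hBA _ hb') c' (hBA _ hc') d' (hBA _ hd') (by omega) (by omega)
      (by omega)
    omega

/-- adding one more mark, one full period after the first one -/
theorem ModSidon.extend {n : ℕ} {D : Finset ℕ} (h : ModSidon n D) (hD : D.Nonempty) :
    HasRuler (D.card + 1) n := by
  classical
  set m := D.min' hD with hm
  have hmD : m ∈ D := Finset.min'_mem D hD
  have hmle : ∀ a ∈ D, m ≤ a := fun a ha => Finset.min'_le D a ha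
  have hlt := h.1
  have hnot : m + n ∉ D := fun hc => by
    have := hlt _ hc
    omega
  have hg : IsGolomb (insert (m + n) D) := by
    intro a ha b hb c hc d hd hab hcd he
    rw [Finset.mem_insert] at ha hb hc hd
    have ha' : a ∈ D := by
      rcases ha with rfl | ha
      · rcases hb with rfl | hb
        · omega
        · have := hlt _ hb
          omega
      · exact ha
    have hc' : c ∈ D := by
      rcases hc with rfl | hc
      · rcases hd with rfl | hd
        · omega
        · have := hlt _ hd
          omega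
      · exact hc
    rcases hb with rfl | hb
    · rcases hd with rfl | hd
      · have h1 := hlt _ ha'
        have h2 := hlt _ hc'
        omega
      · exfalso
        -- m + n - a = d - c
        have h1 : a + d = (m + c) + n := by
          have := hlt _ ha'
          omega
        have h2 : (a + d) % n = (m + c) % n := by rw [h1, Nat.add_mod_right]
        rcases h.2 a ha' m hmD c hc' d hd h2 with h3 | h3
        · have := hlt _ hd
          omega
        · subst h3
          have : d = m + n := by omega
          have := hlt _ hd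
          omega
    · rcases hd with rfl | hd
      · exfalso
        have h1 : c + b = (m + a) + n := by
          have := hlt _ hc'
          omega
        have h2 : (c + b) % n = (m + a) % n := by rw [h1, Nat.add_mod_right]
        rcases h.2 c hc' m hmD a ha' b hb h2 with h3 | h3
        · have := hlt _ hb
          omega
        · subst h3
          have : b = m + n := by omega
          have := hlt _ hb
          omega
      · exact h.isGolomb a ha' b hb c hc' d hd hab hcd he
  refine hasRuler_of_window hg m n _ ?_ ?_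
  · rw [Finset.filter_true_of_mem, Finset.card_insert_of_notMem hnot]
    intro a ha
    rcases Finset.mem_insert.mp ha with rfl | ha
    · omega
    · exact hmle a ha
  · intro a ha
    rcases Finset.mem_insert.mp ha with rfl | ha
    · exact le_rfl
    · have := hlt a ha
      omega

/-! ### Bose-Chowla -/

section bose

variable (K : Type) [Field K] [Fintype K] [DecidableEq K]

/-- the Bose-Chowla set attached to a functional -/
theorem bose_modSidon {L : Type} [Field L] [Fintype L] [DecidableEq L] [Algebra K L]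
    [FiniteDimensional K L] (h2 : finrank K L = 2) (l : L →ₗ[K] K) (hl : l ≠ 0) (g : L)
    (ho : orderOf g = Fintype.card L - 1) :
    ModSidon (Fintype.card L - 1)
      ((Finset.range (Fintype.card L - 1)).filter (fun j => l (g ^ j) = 1)) := by
  constructor
  · intro a ha
    exact Finset.mem_range.mp (Finset.mem_filter.mp ha).1
  · intro a ha b hb c hc d hd h
    rw [Finset.mem_filter, Finset.mem_range] at ha hb hc hd
    have hm : g ^ a * g ^ d = g ^ b * g ^ c := by
      rw [← pow_add, ← pow_add, ← pow_mod_orderOf g (a + d), ← pow_mod_orderOf g (b + c), ho, h]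
    rcases line_sidon h2 l hl _ _ _ _ ha.2 hd.2 hb.2 hc.2 hm with h1 | h1
    · left
      exact pow_injOn_Iio_orderOf (Set.mem_Iio.mpr (by rw [ho]; exact ha.1))
        (Set.mem_Iio.mpr (by rw [ho]; exact hb.1)) h1
    · right
      exact pow_injOn_Iio_orderOf (Set.mem_Iio.mpr (by rw [ho]; exact ha.1))
        (Set.mem_Iio.mpr (by rw [ho]; exact hc.1)) h1

theorem bose_window (p : ℕ) [Fact p.Prime] [CharP K p] (k : ℕ) (hk1 : 1 ≤ k)
    (hk : k ≤ Fintype.card K) : HasRuler k ((k - 1) * (Fintype.card K - 1)) := by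
  classical
  set q := Fintype.card K with hq
  have hq2 : 2 ≤ q := Fintype.one_lt_card
  let L := FiniteField.Extension K p 2
  have hfin : finrank K L = 2 := FiniteField.finrank_extension K p 2
  have : Finite L := Module.finite_of_finite K
  have : Fintype L := Fintype.ofFinite L
  have hcard : Fintype.card L = q ^ 2 := by
    rw [Module.card_eq_pow_finrank (K := K) (V := L), hfin]
  obtain ⟨g, hg0, ho, hg⟩ := exists_gen L
  let bs : Basis (Fin 2) K L := finBasisOfFinrankEq K L hfin
  -- number of marks to be dropped: `q - k`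
  set t := q - k + 1 with ht
  set W := (t + 1) * (q - 1) - 1 with hW
  have hWlt : (Finset.range W).card < (t + 1) * (q - 1) := by
    rw [Finset.card_range]
    have : 0 < (t + 1) * (q - 1) := Nat.mul_pos (by omega) (by omega)
    omega
  obtain ⟨u, v, huv, hlt⟩ := exists_sparse_line (fun j : ℕ => bs.repr (g ^ j) 0)
    (fun j : ℕ => bs.repr (g ^ j) 1) (Finset.range W) t (by omega) hWlt
  let l : L →ₗ[K] K := u • bs.coord 0 + v • bs.coord 1
  have hlx : ∀ x : L, l x = bs.repr x 0 * u + bs.repr x 1 * v := by
    intro x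
    simp only [l, LinearMap.add_apply, LinearMap.smul_apply, Basis.coord_apply, smul_eq_mul]
    ring
  have hl : l ≠ 0 := by
    intro h
    have h0 : l (bs 0) = 0 := by rw [h]; rfl
    have h1 : l (bs 1) = 0 := by rw [h]; rfl
    rw [hlx, Basis.repr_self] at h0 h1
    simp at h0 h1
    rcases huv with h2 | h2
    · exact h2 h0
    · exact h2 h1
  set n := Fintype.card L - 1 with hn
  set D := (Finset.range n).filter (fun j => l (g ^ j) = 1) with hD
  have hDs : ModSidon n D := bose_modSidon K hfin l hl g ho
  have hDc : D.card = q := by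
    rw [hD, card_exponents l hl g ho hg, hfin]
    simp [hq]
  have hfew : (D.filter (fun a => ¬ W ≤ a)).card < t := by
    refine lt_of_le_of_lt (Finset.card_le_card ?_) hlt
    intro j hj
    rw [Finset.mem_filter, hD, Finset.mem_filter] at hj
    rw [Finset.mem_filter, Finset.mem_range]
    refine ⟨by omega, ?_⟩
    have := hj.1.2
    rw [hlx] at this
    exact this
  have hsplit := Finset.card_filter_add_card_filter_not (s := D) (fun a => W ≤ a)
  have hn2 : n = (q - 1) * (q + 1) := by
    rw [hn, hcard]
    obtain ⟨r, hr⟩ : ∃ r, q = r + 1 := ⟨q - 1, by omega⟩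
    rw [hr]
    have : (r + 1) ^ 2 = r * (r + 2) + 1 := by ring
    rw [this]
    simp
  refine hasRuler_of_window hDs.isGolomb W _ k ?_ ?_
  · omega
  · intro a ha
    have h1 := hDs.1 a ha
    -- a ≤ n - 1 = W + (k-1)(q-1)
    obtain ⟨r, hr⟩ : ∃ r, q = r + 1 := ⟨q - 1, by omega⟩
    obtain ⟨s, hs⟩ : ∃ s, q = k + s := ⟨q - k, by omega⟩
    obtain ⟨k', hk'⟩ : ∃ k', k = k' + 1 := ⟨k - 1, by omega⟩
    have ht' : t = s + 1 := by omega
    have hpos : 0 < (t + 1) * (q - 1) := Nat.mul_pos (by omega) (by omega)
    have h3 : n = (t + 1) * (q - 1) + (k - 1) * (q - 1) := by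
      rw [hn2, ← Nat.add_mul, Nat.mul_comm]
      congr 1
      omega
    omega

/-- the Bose-Chowla set itself, with one more mark -/
theorem bose_extend (p : ℕ) [Fact p.Prime] [CharP K p] :
    HasRuler (Fintype.card K + 1) (Fintype.card K ^ 2 - 1) := by
  classical
  set q := Fintype.card K with hq
  have hq2 : 2 ≤ q := Fintype.one_lt_card
  let L := FiniteField.Extension K p 2
  have hfin : finrank K L = 2 := FiniteField.finrank_extension K p 2
  have : Finite L := Module.finite_of_finite K
  have : Fintype L := Fintype.ofFinite L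
  have hcard : Fintype.card L = q ^ 2 := by
    rw [Module.card_eq_pow_finrank (K := K) (V := L), hfin]
  obtain ⟨g, hg0, ho, hg⟩ := exists_gen L
  let bs : Basis (Fin 2) K L := finBasisOfFinrankEq K L hfin
  have hl : bs.coord 0 ≠ 0 := by
    intro h
    have h0 : bs.coord 0 (bs 0) = 0 := by rw [h]; rfl
    simp at h0
  have hDs := bose_modSidon K hfin (bs.coord 0) hl g ho
  have hDc := card_exponents (bs.coord 0) hl g ho hg
  rw [hfin] at hDc
  have hne : ((Finset.range (Fintype.card L - 1)).filter
      (fun j => bs.coord 0 (g ^ j) = 1)).Nonempty := by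
    rw [← Finset.card_pos, hDc]
    positivity
  have := hDs.extend hne
  rw [hDc, hcard] at this
  simpa [hq] using this

/-! ### Singer -/

theorem singer_extend (p : ℕ) [Fact p.Prime] [CharP K p] :
    HasRuler (Fintype.card K + 2) (Fintype.card K ^ 2 + Fintype.card K + 1) := by
  classical
  set q := Fintype.card K with hq
  have hq2 : 2 ≤ q := Fintype.one_lt_card
  let L := FiniteField.Extension K p 3
  have hfin : finrank K L = 3 := FiniteField.finrank_extension K p 3
  have : Finite L := Module.finite_of_finite K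
  have : Fintype L := Fintype.ofFinite L
  have hcard : Fintype.card L = q ^ 3 := by
    rw [Module.card_eq_pow_finrank (K := K) (V := L), hfin]
  obtain ⟨g, hg0, ho, hg⟩ := exists_gen L
  let bs : Basis (Fin 3) K L := finBasisOfFinrankEq K L hfin
  have hl : bs.coord 0 ≠ 0 := by
    intro h
    have h0 : bs.coord 0 (bs 0) = 0 := by rw [h]; rfl
    simp at h0
  set l := bs.coord 0 with hldef
  set n := q ^ 2 + q + 1 with hn
  have hNn : Fintype.card L - 1 = (q - 1) * n := by
    rw [hcard, hn]
    obtain ⟨r, hr⟩ : ∃ r, q = r + 1 := ⟨q - 1, by omega⟩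
    rw [hr]
    have : (r + 1) ^ 3 = r * ((r + 1) ^ 2 + (r + 1) + 1) + 1 := by ring
    rw [this]
    simp
  -- `g ^ n` lies in `K`
  obtain ⟨c₀, hc₀⟩ : ∃ c : K, algebraMap K L c = g ^ n := by
    apply mem_of_pow_card
    rw [← hq]
    have h1 : (g ^ n) ^ (q - 1) = 1 := by
      rw [← pow_mul, mul_comm, ← hNn, ← ho, pow_orderOf_eq_one]
    obtain ⟨r, hr⟩ : ∃ r, q = r + 1 := ⟨q - 1, by omega⟩
    rw [hr] at h1 ⊢
    rw [pow_succ]
    have : r + 1 - 1 = r := by omega
    rw [this] at h1
    rw [h1, one_mul]
  have hc₀0 : c₀ ≠ 0 := by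
    intro h
    rw [h, map_zero] at hc₀
    exact pow_ne_zero n hg0 hc₀.symm
  have hmul : ∀ j : ℕ, g ^ (j + n) = c₀ • g ^ j := by
    intro j
    rw [pow_add, ← hc₀, mul_comm, Algebra.smul_def]
  have hmul2 : ∀ m j : ℕ, g ^ (j + m * n) = (c₀ ^ m) • g ^ j := by
    intro m
    induction m with
    | zero => intro j; simp
    | succ m ih =>
      intro j
      have : j + (m + 1) * n = (j + m * n) + n := by ring
      rw [this, hmul, ih, smul_smul, pow_succ']
  have hper : Function.Periodic (fun j => l (g ^ j) = 0) n := by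
    intro j
    simp only
    rw [hmul, map_smul, smul_eq_mul, mul_eq_zero]
    simp [hc₀0]
  set D := (Finset.range n).filter (fun j => l (g ^ j) = 0) with hD
  -- counting
  have hcount : ∀ m : ℕ, ((Finset.range (m * n)).filter (fun j => l (g ^ j) = 0)).card
      = m * D.card := by
    intro m
    induction m with
    | zero => simp
    | succ m ih =>
      rw [← Nat.count_eq_card_filter_range] at ih ⊢
      rw [Nat.succ_mul, Nat.count_add, ih]
      have h1 : Nat.count (fun k => l (g ^ (m * n + k)) = 0) n = D.card := by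
        rw [hD, ← Nat.count_eq_card_filter_range]
        congr 1
        funext k
        rw [Nat.add_comm, hmul2, map_smul, smul_eq_mul, mul_eq_zero]
        simp [hc₀0]
      rw [h1, Nat.succ_mul]
  have htot : ((Finset.range ((q - 1) * n)).filter (fun j => l (g ^ j) = 0)).card = q ^ 2 - 1 := by
    have h1 : (Finset.univ.filter (fun x : L => l x = 0)).card = q ^ 2 := by
      rw [card_level l hl 0, hfin]
    have h2 : ((Finset.univ.filter (fun x : L => l x = 0)).erase 0).card = q ^ 2 - 1 := by
      rw [Finset.card_erase_of_mem, h1]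
      rw [Finset.mem_filter]
      exact ⟨Finset.mem_univ _, map_zero l⟩
    rw [← h2]
    refine Finset.card_bij (fun j _ => g ^ j) ?_ ?_ ?_
    · intro j hj
      rw [Finset.mem_filter] at hj
      rw [Finset.mem_erase, Finset.mem_filter]
      exact ⟨pow_ne_zero _ hg0, Finset.mem_univ _, hj.2⟩
    · intro a ha b hb hab
      rw [Finset.mem_filter, Finset.mem_range, ← hNn, ← ho] at ha hb
      exact pow_injOn_Iio_orderOf (Set.mem_Iio.mpr ha.1) (Set.mem_Iio.mpr hb.1) hab
    · intro x hx
      rw [Finset.mem_erase, Finset.mem_filter] at hx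
      obtain ⟨j, hj, hjx⟩ := hg x hx.1
      refine ⟨j, ?_, hjx⟩
      rw [Finset.mem_filter, Finset.mem_range, hjx, ← hNn]
      exact ⟨hj, hx.2.2⟩
  have hDc : D.card = q + 1 := by
    rw [hcount] at htot
    obtain ⟨r, hr⟩ : ∃ r, q = r + 1 := ⟨q - 1, by omega⟩
    rw [hr] at htot ⊢
    have h1 : (r + 1) ^ 2 - 1 = r * (r + 2) := by
      have : (r + 1) ^ 2 = r * (r + 2) + 1 := by ring
      rw [this]; simp
    rw [h1] at htot
    have h2 : r + 1 - 1 = r := by omega
    rw [h2] at htot
    have hr0 : 0 < r := by omega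
    exact Nat.eq_of_mul_eq_mul_left hr0 htot
  have hinj : ∀ a b : ℕ, a < n → b < n → (∃ c : K, g ^ a = c • g ^ b) → a = b := by
    -- if `g ^ (a - b)` is in `K` then `n ∣ a - b`
    have key : ∀ a b : ℕ, a < n → b ≤ a → (∃ c : K, g ^ a = c • g ^ b) → a = b := by
      intro a b ha hba hc
      obtain ⟨c, hc⟩ := hc
      have h1 : g ^ (a - b) = algebraMap K L c := by
        have h2 : g ^ b * g ^ (a - b) = g ^ b * algebraMap K L c := by
          rw [← pow_add, Nat.add_sub_cancel' hba, hc, Algebra.smul_def, mul_comm]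
        exact mul_left_cancel₀ (pow_ne_zero _ hg0) h2
      have hc0 : c ≠ 0 := by
        intro h
        rw [h, map_zero] at h1
        exact pow_ne_zero _ hg0 h1
      have h3 : g ^ ((a - b) * (q - 1)) = 1 := by
        rw [pow_mul, h1, ← map_pow, hq, FiniteField.pow_card_sub_one_eq_one c hc0, map_one]
      have h4 := orderOf_dvd_of_pow_eq_one h3
      rw [ho, hNn, mul_comm (a - b)] at h4
      have h5 : n ∣ a - b := Nat.dvd_of_mul_dvd_mul_left (by omega) h4
      have h6 : a - b = 0 := Nat.eq_zero_of_dvd_of_lt h5 (by omega)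
      omega
    intro a b ha hb hc
    rcases le_total b a with h | h
    · exact key a b ha h hc
    · refine (key b a hb h ?_).symm
      obtain ⟨c, hc⟩ := hc
      have hc0 : c ≠ 0 := by
        intro h
        rw [h, zero_smul] at hc
        exact pow_ne_zero _ hg0 hc
      exact ⟨c⁻¹, by rw [hc, smul_smul, inv_mul_cancel₀ hc0, one_smul]⟩
  have hmodn : ∀ m : ℕ, ∃ c : K, c ≠ 0 ∧ g ^ m = c • g ^ (m % n) := by
    intro m
    refine ⟨c₀ ^ (m / n), pow_ne_zero _ hc₀0, ?_⟩
    rw [← hmul2]
    congr 1
    have := Nat.mod_add_div m n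
    rw [Nat.mul_comm] at this
    omega
  have hDs : ModSidon n D := by
    constructor
    · intro a ha
      exact Finset.mem_range.mp (Finset.mem_filter.mp ha).1
    · intro a ha b hb c hc d hd h
      rw [hD, Finset.mem_filter, Finset.mem_range] at ha hb hc hd
      obtain ⟨e₁, he₁, h1⟩ := hmodn (a + d)
      obtain ⟨e₂, he₂, h2⟩ := hmodn (b + c)
      have hm : g ^ a * g ^ d = (e₁ * e₂⁻¹) • (g ^ b * g ^ c) := by
        rw [← pow_add, ← pow_add, h1, h2, h, smul_smul, mul_assoc, inv_mul_cancel₀ he₂, mul_one]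
      rcases plane_sidon hfin l hl _ _ _ _ _ ha.2 hb.2 hc.2 hd.2 (pow_ne_zero _ hg0)
        (pow_ne_zero _ hg0) (pow_ne_zero _ hg0) hm with h3 | h3
      · left
        exact hinj a b ha.1 hb.1 h3
      · right
        exact hinj a c ha.1 hc.1 h3
  have hne : D.Nonempty := by
    rw [← Finset.card_pos, hDc]; omega
  have := hDs.extend hne
  rw [hDc] at this
  exact this

end bose

theorem HasRuler.mono {k L L' : ℕ} (h : HasRuler k L) (hL : L ≤ L') : HasRuler k L' := by
  obtain ⟨A, h1, h2, h3⟩ := h
  exact ⟨A, h1, fun a ha => (h2 a ha).trans hL, h3⟩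

theorem main_window (q k : ℕ) (hq : IsPrimePow q) (hk1 : 1 ≤ k) (hk : k ≤ q) :
    HasRuler k ((k - 1) * (q - 1)) := by
  classical
  rw [isPrimePow_nat_iff] at hq
  obtain ⟨p, m, hp, hm, rfl⟩ := hq
  have : Fact p.Prime := ⟨hp⟩
  have : Fintype (GaloisField p m) := Fintype.ofFinite _
  have hc : Fintype.card (GaloisField p m) = p ^ m := by
    rw [← Nat.card_eq_fintype_card, GaloisField.card p m (by omega)]
  have := bose_window (GaloisField p m) p k hk1 (by rw [hc]; exact hk)
  rw [hc] at this
  exact this

theorem main_near (q k : ℕ) (hq : IsPrimePow q) (hk1 : 1 ≤ k) (h1 : k ≤ q + 2) (h2 : q ≤ k + 2) :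
    HasRuler k (k ^ 2 - 1) := by
  classical
  have hq' := hq
  rw [isPrimePow_nat_iff] at hq'
  obtain ⟨p, m, hp, hm, hpm⟩ := hq'
  have : Fact p.Prime := ⟨hp⟩
  have : Fintype (GaloisField p m) := Fintype.ofFinite _
  have hc : Fintype.card (GaloisField p m) = q := by
    rw [← Nat.card_eq_fintype_card, GaloisField.card p m (by omega), hpm]
  rcases Nat.lt_or_ge q k with hlt | hge
  · have hk : k = q + 1 ∨ k = q + 2 := by omega
    rcases hk with rfl | rfl
    · have := bose_extend (GaloisField p m) p
      rw [hc] at this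
      refine this.mono ?_
      have : q ^ 2 ≤ (q + 1) ^ 2 := Nat.pow_le_pow_left (by omega) 2
      omega
    · have := singer_extend (GaloisField p m) p
      rw [hc] at this
      refine this.mono ?_
      have : (q + 2) ^ 2 = q ^ 2 + 4 * q + 4 := by ring
      omega
  · refine (main_window q k hq hk1 hge).mono ?_
    obtain ⟨r, rfl⟩ : ∃ r, k = r + 1 := ⟨k - 1, by omega⟩
    have h3 : (r + 1 - 1) * (q - 1) ≤ r * (r + 2) := by
      have : r + 1 - 1 = r := by omega
      rw [this]
      exact Nat.mul_le_mul_left _ (by omega)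
    have h4 : (r + 1) ^ 2 - 1 = r * (r + 2) := by
      have : (r + 1) ^ 2 = r * (r + 2) + 1 := by ring
      rw [this]; simp
    omega

end Pool.Agent.Gol
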