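import Pool.Agent.Gol.Main

set_option autoImplicit false

namespace Pool.Agent.Gol

/-- Variant (not a hand-in): for every `k ≥ 1` such that some prime power `q` satisfies
`|q - k| ≤ 2`, there is a Golomb ruler with `k` marks, all among `0, …, k ^ 2 - 1`. -/
theorem near_prime_power :
    ∀ k q : ℕ, 0 < k → IsPrimePow q → k ≤ q + 2 → q ≤ k + 2 →
      ∃ A : Finset ℕ, A.card = k ∧ (∀ a ∈ A, a < k ^ 2) ∧
        ∀ a ∈ A, ∀ b ∈ A, ∀ c ∈ A, ∀ d ∈ A, a < b → c < d → b - a = d - c → a = c ∧ b = d := by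
  intro k q hk hq h1 h2
  obtain ⟨A, hA, hL, hG⟩ := Pool.Agent.Gol.main_near q k hq hk h1 h2
  refine ⟨A, hA, ?_, hG⟩
  intro a ha
  have h3 := hL a ha
  have h4 : 0 < k ^ 2 := by positivity
  omega

end Pool.Agent.Gol
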