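import Mathlib

set_option autoImplicit false

open Module

namespace Pool.Agent.Gol

/-! # Part B: Bose-Chowla and Singer sets as level sets of a linear functional on powers of a
generator. -/

/-- level sets of a nonzero functional: cardinality -/
theorem card_level {K L : Type*} [Field K] [Fintype K] [Field L] [Fintype L] [Algebra K L]
    [FiniteDimensional K L] [DecidableEq K] (l : L →ₗ[K] K) (hl : l ≠ 0) (c : K) :
    (Finset.univ.filter (fun x : L => l x = c)).card = Fintype.card K ^ (finrank K L - 1) := by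
  classical
  have hsurj : Function.Surjective l := LinearMap.surjective hl
  obtain ⟨z, hz⟩ := hsurj c
  have hker : finrank K (LinearMap.ker l) = finrank K L - 1 := by
    have h := LinearMap.finrank_range_add_finrank_ker l
    rw [LinearMap.range_eq_top.mpr hsurj, finrank_top, finrank_self] at h
    omega
  have hck : Fintype.card (LinearMap.ker l) = Fintype.card K ^ (finrank K L - 1) := by
    rw [Module.card_eq_pow_finrank (K := K) (V := LinearMap.ker l), hker]
  rw [← hck]
  rw [← Fintype.card_coe]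
  refine Fintype.card_congr ?_
  refine
    { toFun := fun x => ⟨x.1 - z, ?_⟩
      invFun := fun y => ⟨y.1 + z, ?_⟩
      left_inv := ?_
      right_inv := ?_ }
  · have := x.2
    rw [Finset.mem_filter] at this
    rw [LinearMap.mem_ker, map_sub, this.2, hz, sub_self]
  · rw [Finset.mem_filter]
    refine ⟨Finset.mem_univ _, ?_⟩
    rw [map_add, hz, LinearMap.mem_ker.mp y.2, zero_add]
  · intro x
    simp
  · intro y
    simp

/-- the Sidon property of a line not through the origin in a quadratic extension -/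
theorem line_sidon {K L : Type*} [Field K] [Field L] [Algebra K L] [FiniteDimensional K L]
    (h2 : finrank K L = 2) (l : L →ₗ[K] K) (hl : l ≠ 0) (x₁ x₂ x₃ x₄ : L)
    (h₁ : l x₁ = 1) (h₂ : l x₂ = 1) (h₃ : l x₃ = 1) (h₄ : l x₄ = 1)
    (hm : x₁ * x₂ = x₃ * x₄) : x₁ = x₃ ∨ x₁ = x₄ := by
  have hsurj : Function.Surjective l := LinearMap.surjective hl
  have hker : finrank K (LinearMap.ker l) = 1 := by
    have h := LinearMap.finrank_range_add_finrank_ker l
    rw [LinearMap.range_eq_top.mpr hsurj, finrank_top, finrank_self] at h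
    omega
  obtain ⟨w, hw0, hw⟩ := finrank_eq_one_iff'.mp hker
  have hw0' : (w : L) ≠ 0 := by simpa using hw0
  have key : ∀ y : L, l y = 0 → ∃ r : K, y = r • (w : L) := by
    intro y hy
    obtain ⟨r, hr⟩ := hw ⟨y, hy⟩
    refine ⟨r, ?_⟩
    have := congrArg Subtype.val hr
    simpa using this.symm
  obtain ⟨r, hr⟩ := key (x₁ - x₃) (by rw [map_sub, h₁, h₃, sub_self])
  obtain ⟨s, hs⟩ := key (x₁ - x₄) (by rw [map_sub, h₁, h₄, sub_self])
  obtain ⟨e, he⟩ := key (x₁ + x₂ - x₃ - x₄) (by
    rw [map_sub, map_sub, map_add, h₁, h₂, h₃, h₄]; ring)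
  have h5 : (x₁ - x₃) * (x₁ - x₄) = x₁ * (x₁ + x₂ - x₃ - x₄) := by
    linear_combination (-1 : L) * hm
  rw [hr, hs, he] at h5
  have h6 : (w : L) * ((r * s) • (w : L)) = (w : L) * (e • x₁) := by
    rw [smul_mul_smul_comm] at h5
    rw [mul_smul_comm, mul_smul_comm, h5, mul_smul_comm, mul_comm x₁ (w : L)]
  have h7 : (r * s) • (w : L) = e • x₁ := mul_left_cancel₀ hw0' h6
  have h8 : e = 0 := by
    have := congrArg l h7
    rw [map_smul, map_smul, LinearMap.mem_ker.mp w.2, h₁] at this
    simpa using this.symm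
  rw [h8, zero_smul] at h7
  rcases smul_eq_zero.mp h7 with h9 | h9
  · rcases mul_eq_zero.mp h9 with h10 | h10
    · left
      rw [h10, zero_smul] at hr
      exact sub_eq_zero.mp hr
    · right
      rw [h10, zero_smul] at hs
      exact sub_eq_zero.mp hs
  · exact absurd h9 hw0'

/-- a generator of the multiplicative group of a finite field -/
theorem exists_gen (L : Type*) [Field L] [Fintype L] [DecidableEq L] :
    ∃ g : L, g ≠ 0 ∧ orderOf g = Fintype.card L - 1 ∧
      (∀ x : L, x ≠ 0 → ∃ j < Fintype.card L - 1, g ^ j = x) := by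
  obtain ⟨g, hg⟩ := IsCyclic.exists_generator (α := Lˣ)
  refine ⟨(g : L), g.ne_zero, ?_, ?_⟩
  · rw [orderOf_units, orderOf_eq_card_of_forall_mem_zpowers hg, Nat.card_eq_fintype_card,
      Fintype.card_units]
  · intro x hx
    obtain ⟨u, rfl⟩ : ∃ u : Lˣ, (u : L) = x := ⟨Units.mk0 x hx, rfl⟩
    have h1 := hg u
    rw [← mem_powers_iff_mem_zpowers] at h1
    obtain ⟨m, hm⟩ := h1
    simp only at hm
    have ho : orderOf g = Fintype.card L - 1 := by
      rw [orderOf_eq_card_of_forall_mem_zpowers hg, Nat.card_eq_fintype_card, Fintype.card_units]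
    have hpos : 0 < Fintype.card L - 1 := by
      have := Fintype.one_lt_card (α := L)
      omega
    refine ⟨m % (Fintype.card L - 1), Nat.mod_lt _ hpos, ?_⟩
    rw [← ho]
    rw [← Units.val_pow_eq_pow_val, pow_mod_orderOf, hm]

/-- the exponents at which a nonzero functional takes a value -/
theorem card_exponents {K L : Type*} [Field K] [Fintype K] [Field L] [Fintype L] [Algebra K L]
    [FiniteDimensional K L] [DecidableEq K] [DecidableEq L] (l : L →ₗ[K] K) (hl : l ≠ 0)
    (g : L) (ho : orderOf g = Fintype.card L - 1)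
    (hg : ∀ x : L, x ≠ 0 → ∃ j < Fintype.card L - 1, g ^ j = x) :
    ((Finset.range (Fintype.card L - 1)).filter (fun j => l (g ^ j) = 1)).card
      = Fintype.card K ^ (finrank K L - 1) := by
  rw [← card_level l hl 1]
  refine Finset.card_bij (fun j _ => g ^ j) ?_ ?_ ?_
  · intro j hj
    rw [Finset.mem_filter] at hj ⊢
    exact ⟨Finset.mem_univ _, hj.2⟩
  · intro a ha b hb hab
    rw [Finset.mem_filter, Finset.mem_range] at ha hb
    rw [← ho] at ha hb
    exact pow_injOn_Iio_orderOf (Set.mem_Iio.mpr ha.1) (Set.mem_Iio.mpr hb.1) hab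
  · intro x hx
    rw [Finset.mem_filter] at hx
    have hx0 : x ≠ 0 := by
      intro h
      rw [h, map_zero] at hx
      exact zero_ne_one hx.2
    obtain ⟨j, hj, hjx⟩ := hg x hx0
    refine ⟨j, ?_, hjx⟩
    rw [Finset.mem_filter, Finset.mem_range, hjx]
    exact ⟨hj, hx.2⟩

end Pool.Agent.Gol
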