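import Mathlib

set_option autoImplicit false

open Polynomial

namespace Pool.Agent.Gol

/-! # Part A: a set of fewer than `(t+1)(q-1)` points of the affine plane is met in fewer than `t`
points by some line not through the origin (polynomial method). -/

section

variable {K : Type*} [Field K] [Fintype K] [DecidableEq K]

/-- `f = 0` or `deg f + (q - 1) ≤ m`. -/
def DegOK (f : K[X]) (m : ℕ) : Prop := f = 0 ∨ f.natDegree + (Fintype.card K - 1) ≤ m

omit [DecidableEq K] in
theorem DegOK.sub {f g : K[X]} {m : ℕ} (hf : DegOK f m) (hg : DegOK g m) : DegOK (f - g) m := by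
  rcases hf with rfl | hf
  · rcases hg with rfl | hg
    · left; simp
    · right; simpa using hg
  · rcases hg with rfl | hg
    · right; simpa using hf
    · right
      have := natDegree_sub_le f g
      omega

variable {ι : Type*} [DecidableEq ι]

/-- the product of the linear forms minus one -/
noncomputable def Pv (a b : ι → K) (S : Finset ι) (v : K) : K[X] :=
  ∏ i ∈ S, (1 - C (a i) * X - C (b i * v))

omit [Fintype K] [DecidableEq K] in
theorem Pv_insert (a b : ι → K) (S : Finset ι) (v : K) (i : ι) (hi : i ∉ S) :
    Pv a b (insert i S) v = (1 - C (a i) * X - C (b i * v)) * Pv a b S v := by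
  unfold Pv
  rw [Finset.prod_insert hi]

theorem degOK_sum (a b : ι → K) (S : Finset ι) :
    ∀ j : ℕ, DegOK (∑ v : K, C (v ^ j) * Pv a b S v) (S.card + j) := by
  induction S using Finset.induction_on with
  | empty =>
    intro j
    by_cases hj : j < Fintype.card K - 1
    · left
      have h := FiniteField.sum_pow_lt_card_sub_one K j hj
      simp only [Pv, Finset.prod_empty, mul_one]
      rw [← map_sum, h, map_zero]
    · right
      simp only [Pv, Finset.prod_empty, mul_one]
      rw [← map_sum]
      simp only [natDegree_C, Finset.card_empty]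
      omega
  | insert i S hi ih =>
    intro j
    have h1 : ∑ v : K, C (v ^ j) * Pv a b (insert i S) v
        = (1 - C (a i) * X) * (∑ v : K, C (v ^ j) * Pv a b S v)
          - C (b i) * (∑ v : K, C (v ^ (j + 1)) * Pv a b S v) := by
      rw [Finset.mul_sum, Finset.mul_sum, ← Finset.sum_sub_distrib]
      refine Finset.sum_congr rfl (fun v _ => ?_)
      rw [Pv_insert a b S v i hi, pow_succ, map_mul, map_mul]
      ring
    rw [h1, Finset.card_insert_of_notMem hi]
    apply DegOK.sub
    · rcases ih j with h0 | h0
      · left; rw [h0, mul_zero]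
      · right
        have h2 : (1 - C (a i) * X : K[X]).natDegree ≤ 1 := by
          refine (natDegree_sub_le _ _).trans ?_
          simp only [natDegree_one]
          exact max_le (by omega) ((natDegree_C_mul_le _ _).trans natDegree_X_le)
        have h3 := natDegree_mul_le (p := (1 - C (a i) * X : K[X]))
          (q := ∑ v : K, C (v ^ j) * Pv a b S v)
        omega
    · rcases ih (j + 1) with h0 | h0
      · left; rw [h0, mul_zero]
      · right
        have h3 := natDegree_C_mul_le (b i) (∑ v : K, C (v ^ (j + 1)) * Pv a b S v)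
        omega

/-- **Sparse lines.** -/
theorem exists_sparse_line (a b : ι → K) (S : Finset ι) (t : ℕ) (ht : 1 ≤ t)
    (hS : S.card < (t + 1) * (Fintype.card K - 1)) :
    ∃ u v : K, (u ≠ 0 ∨ v ≠ 0) ∧ (S.filter (fun i => a i * u + b i * v = 1)).card < t := by
  by_contra hcon
  push Not at hcon
  set T : K[X] := ∑ v : K, Pv a b S v with hT
  have hTdeg : DegOK T S.card := by
    have := degOK_sum a b S 0
    simpa [hT] using this
  have hT0 : T.eval 0 = 1 := by
    rw [hT, eval_finsetSum, Finset.sum_eq_single (0 : K)]
    · simp [Pv, eval_prod]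
    · intro v _ hv
      have h1 := hcon 0 v (Or.inr hv)
      have h2 : 0 < (S.filter (fun i => a i * 0 + b i * v = 1)).card := by omega
      obtain ⟨i, hi⟩ := Finset.card_pos.mp h2
      rw [Finset.mem_filter] at hi
      unfold Pv
      rw [eval_prod]
      refine Finset.prod_eq_zero hi.1 ?_
      have h3 : b i * v = 1 := by simpa using hi.2
      simp [h3]
    · intro h; exact absurd (Finset.mem_univ _) h
  have hTne : T ≠ 0 := by
    intro h
    rw [h] at hT0
    simp at hT0
  have hdvd : ∀ u : K, u ≠ 0 → (X - C u) ^ t ∣ T := by
    intro u hu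
    rw [hT]
    refine Finset.dvd_sum (fun v _ => ?_)
    have h1 := hcon u v (Or.inl hu)
    have h2 : Pv a b S v = (∏ i ∈ S.filter (fun i => a i * u + b i * v = 1),
        (1 - C (a i) * X - C (b i * v)))
        * (∏ i ∈ S.filter (fun i => ¬ (a i * u + b i * v = 1)),
        (1 - C (a i) * X - C (b i * v))) := by
      unfold Pv
      rw [Finset.prod_filter_mul_prod_filter_not]
    rw [h2]
    apply Dvd.dvd.mul_right
    have h3 : (X - C u) ^ (S.filter (fun i => a i * u + b i * v = 1)).card ∣
        ∏ i ∈ S.filter (fun i => a i * u + b i * v = 1), (1 - C (a i) * X - C (b i * v)) := by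
      rw [← Finset.prod_const]
      refine Finset.prod_dvd_prod_of_dvd _ _ (fun i hi => ?_)
      rw [Finset.mem_filter] at hi
      rw [dvd_iff_isRoot]
      simp only [IsRoot.def, eval_sub, eval_one, eval_mul, eval_C, eval_X]
      linear_combination (-1 : K) * hi.2
    exact (pow_dvd_pow _ h1).trans h3
  have hprod : (∏ u ∈ (Finset.univ : Finset K).erase 0, (X - C u) ^ t) ∣ T := by
    refine Finset.prod_dvd_of_coprime ?_ ?_
    · intro x _ y _ hxy
      exact (pairwise_coprime_X_sub_C Function.injective_id hxy).pow
    · intro u hu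
      exact hdvd u (Finset.ne_of_mem_erase hu)
  have hdeg2 := natDegree_le_of_dvd hprod hTne
  have hdeg3 : (∏ u ∈ (Finset.univ : Finset K).erase 0, (X - C u) ^ t).natDegree
      = (Fintype.card K - 1) * t := by
    rw [natDegree_prod]
    · simp [natDegree_pow, Finset.card_erase_of_mem, Finset.card_univ]
    · intro u _
      exact pow_ne_zero _ (X_sub_C_ne_zero u)
  rw [hdeg3] at hdeg2
  rcases hTdeg with h | h
  · exact hTne h
  · have : (t + 1) * (Fintype.card K - 1) = (Fintype.card K - 1) * t + (Fintype.card K - 1) := by ring
    omega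

end

end Pool.Agent.Gol
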